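import Pool.Agent.Helper71.ST.Defs

/-!
# Project ST (MP_a499ba_nt), block D for a general kernel
-/

set_option autoImplicit false

namespace Pool.Agent.Helper38.ST

open MeasureTheory Pool.Agent.Helper99.MS Pool.Agent.Helper71.ST

variable {B : ℝ} {k : ℕ}

theorem gA_cont (h : GB (ff mr) B) (hk : 1 ≤ k) : Continuous (gA k) :=
  cv_cont (ff_meas mr) h (alC_KD (by omega))

theorem gB_cont (h : GB (ff mr) B) (hk : 1 ≤ k) : Continuous (gB k) :=
  (cv_cont (ff_meas mr) h (be_KD hk)).comp continuous_neg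

/-- an integrable kernel of compact support against a continuous function -/
theorem prod_int {f g : ℝ → ℂ} (hf : Integrable f) {a b : ℝ} (hs : ∀ y, b < y ∨ y < a → f y = 0) (hg : Continuous g)
    (V : ℝ) : Integrable (fun y => f y * g (V + y)) := by
  have hc : Continuous (fun y : ℝ => g (V + y)) := hg.comp (by fun_prop)
  obtain ⟨C, hC⟩ := (isCompact_Icc (a := a) (b := b)).exists_bound_of_continuousOn hc.continuousOn
  refine Integrable.mono' (hf.norm.mul_const C) (hf.1.mul hc.aestronglyMeasurable) ?_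
  apply Filter.Eventually.of_forall
  intro y
  by_cases hy : b < y ∨ y < a
  · rw [hs y hy]
    simp
  · rw [norm_mul]
    apply mul_le_mul_of_nonneg_left _ (norm_nonneg _)
    rw [not_or, not_lt, not_lt] at hy
    exact hC y ⟨hy.2, hy.1⟩

theorem split_gen (h : GB (ff mr) B) (hk : 1 ≤ k) {f : ℝ → ℂ} (hf : Integrable f) {a b : ℝ}
    (hs : ∀ y, b < y ∨ y < a → f y = 0) (V : ℝ) :
    Tc f (gg (4 * k)) V = Tc f (gA k) V - Tc f (gB k) V := by
  unfold Tc
  rw [← integral_sub (prod_int hf hs (gA_cont h hk) V) (prod_int hf hs (gB_cont h hk) V)]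
  apply integral_congr_ae
  apply Filter.Eventually.of_forall
  intro y
  show f y * gg (4 * k) (V + y) = f y * gA k (V + y) - f y * gB k (V + y)
  unfold gg gA gB
  ring

theorem gB_gen (h : GB (ff mr) B) (hk : 1 ≤ k) {f : ℝ → ℂ} (hf : Integrable f) {a b V : ℝ}
    (hs : ∀ y, b < y ∨ y < a → f y = 0) (hV : -1 ≤ V + a) :
    ‖Tc f (gB k) V‖ ≤ (∫ y, ‖f y‖) * (228 * B * CE / √((4 * k : ℕ) : ℝ)) := by
  unfold Tc
  rw [← integral_mul_const]
  refine norm_integral_le_of_norm_le (hf.norm.mul_const _) ?_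
  apply Filter.Eventually.of_forall
  intro y
  by_cases hy : b < y ∨ y < a
  · rw [hs y hy]
    simp
  · rw [norm_mul]
    apply mul_le_mul_of_nonneg_left _ (norm_nonneg _)
    rw [not_or, not_lt, not_lt] at hy
    exact g2_bd h hk (v := V + y) (by linarith [hy.2])

end Pool.Agent.Helper38.ST
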